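import Pool.Agent.RKT.Add
import Pool.Agent.RKT.Ext
import Pool.Agent.RKT.Fix
import Pool.Agent.RKT.Fun
import Pool.Agent.RKT.Gen
import Pool.Agent.RKT.Sets
import Pool.Agent.RKT.Tree

/-!
# Under CH the tree of height `ω₂` over `ℶ_2` is an initial segment of the Rudin-Keisler order
-/

namespace Pool.Agent.Results.MP_f69c58_lc.TreeInitialSegment

open Pool.Agent.RKT

/-- CH implies that the Rudin-Keisler order on isomorphism classes of ultrafilters on `ℕ` has an
initial segment which is order isomorphic to the tree of all functions from an ordinal below `ω₂`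
to a set of size `ℶ_2`, ordered by extension. -/
theorem result (CH : Cardinal.continuum.{0} = Cardinal.aleph.{0} 1) (K : Type)
    (hK : Cardinal.mk K = Cardinal.beth.{0} 2) :
    ∃ I : Set (Antisymmetrization BetaOmega (· ≤ ·)),
      IsLowerSet I ∧ Nonempty (I ≃o Node K (Ordinal.omega.{0} 2)) :=
  target_Tree target_Fix
    (target_Ext.{1} target_Fix target_Gen (target_Add target_Set) target_Fun target_Set) CH K hK

end Pool.Agent.Results.MP_f69c58_lc.TreeInitialSegment
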